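import Pool.Agent.Strip051.Box.C2
import Pool.Agent.Strip051.Box.S30
import Pool.Agent.Strip051.LB.Fc.F2

/-! # LINE tight chart ChA03V2_pm_101 -/

namespace Pool.Agent.Strip051.LB.ChA03V2_pm_101

open Pool.Agent.Strip051.Box Pool.Agent.Strip051.Box2

open Pool.Agent.Strip051.LB.Fc Pool.Agent.Strip051.LB.Fc.F2 Pool.Agent.Strip051.LB.Fn Pool.Agent.Strip051.LB.Fn.F2

/-- coordinates of a point of the box -/
def In (b : Bx) (E : Pt) (x1 x2 : ℝ) : Prop :=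
  (S : ℝ) * x1 = ((b.p1 : ℝ) - b.n1) + b.q1 * E.e1 ∧ (S : ℝ) * x2 = ((b.p2 : ℝ) - b.n2) + b.q2 * E.e2

variable {b : Bx} {E : Pt} {x1 x2 : ℝ}

def t0 (b : Bx) : TM := X1 b
noncomputable def v0 (x1 _x2 : ℝ) : ℝ := x1
theorem h0 (h : In b E x1 x2) : Enc S E (t0 b) (v0 x1 x2) := enc_X1 h.1

def t1 (b : Bx) : TM := X2 b
noncomputable def v1 (_x1 x2 : ℝ) : ℝ := x2
theorem h1 (h : In b E x1 x2) : Enc S E (t1 b) (v1 x1 x2) := enc_X2 h.2

def t2 (_b : Bx) : TM := tconst 1859775393 0 1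
noncomputable def v2 (_x1 _x2 : ℝ) : ℝ := Real.sqrt ((3 : ℕ) : ℝ)
theorem h2 (_h : In b E x1 x2) : Enc S E (t2 b) (v2 x1 x2) := enc_sqrtn E (by decide) (by decide)

def t3 (b : Bx) : TM := tscale 1 2 (t2 b)
noncomputable def v3 (x1 x2 : ℝ) : ℝ := ((1 : ℕ) : ℝ) / ((2 : ℕ) : ℝ) * v2 x1 x2
theorem h3 (h : In b E x1 x2) : Enc S E (t3 b) (v3 x1 x2) := enc_scale 1 (by norm_num) (h2 h)

def t4 (b : Bx) : TM := tsq S (t0 b)
noncomputable def v4 (x1 x2 : ℝ) : ℝ := (v0 x1 x2) ^ 2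
theorem h4 (h : In b E x1 x2) : Enc S E (t4 b) (v4 x1 x2) := enc_sq hS (h0 h)

def t5 (_b : Bx) : TM := tconst (Nat.mul 1 S) 0 0
noncomputable def v5 (_x1 _x2 : ℝ) : ℝ := ((1 : ℕ) : ℝ)
theorem h5 (_h : In b E x1 x2) : Enc S E (t5 b) (v5 x1 x2) := enc_nc E 1

def t6 (b : Bx) : TM := tsub (t5 b) (t4 b)
noncomputable def v6 (x1 x2 : ℝ) : ℝ := v5 x1 x2 - v4 x1 x2
theorem h6 (h : In b E x1 x2) : Enc S E (t6 b) (v6 x1 x2) := enc_sub (h5 h) (h4 h)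

def t7 (b : Bx) : TM := tsqrt S (t6 b)
noncomputable def v7 (x1 x2 : ℝ) : ℝ := Real.sqrt (v6 x1 x2)
theorem h7 (h : In b E x1 x2) : Enc S E (t7 b) (v7 x1 x2) := enc_sqrt hS (h6 h)

def t9 (_b : Bx) : TM := tconst (Nat.div (Nat.mul 1 S) 2) 0 1
noncomputable def v9 (_x1 _x2 : ℝ) : ℝ := ((1 : ℕ) : ℝ) / ((2 : ℕ) : ℝ)
theorem h9 (_h : In b E x1 x2) : Enc S E (t9 b) (v9 x1 x2) := enc_rat E 1 (by norm_num)

def t10 (b : Bx) : TM := tmul S (t7 b) (t3 b)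
noncomputable def v10 (x1 x2 : ℝ) : ℝ := v7 x1 x2 * v3 x1 x2
theorem h10 (h : In b E x1 x2) : Enc S E (t10 b) (v10 x1 x2) := enc_mul hS (h7 h) (h3 h)

def t11 (b : Bx) : TM := tneg (t10 b)
noncomputable def v11 (x1 x2 : ℝ) : ℝ := -(v10 x1 x2)
theorem h11 (h : In b E x1 x2) : Enc S E (t11 b) (v11 x1 x2) := enc_neg (h10 h)

def t12 (b : Bx) : TM := tscale 1 2 (t0 b)
noncomputable def v12 (x1 x2 : ℝ) : ℝ := ((1 : ℕ) : ℝ) / ((2 : ℕ) : ℝ) * v0 x1 x2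
theorem h12 (h : In b E x1 x2) : Enc S E (t12 b) (v12 x1 x2) := enc_scale 1 (by norm_num) (h0 h)

def t13 (b : Bx) : TM := tsub (t11 b) (t12 b)
noncomputable def v13 (x1 x2 : ℝ) : ℝ := v11 x1 x2 - v12 x1 x2
theorem h13 (h : In b E x1 x2) : Enc S E (t13 b) (v13 x1 x2) := enc_sub (h11 h) (h12 h)

def t14 (b : Bx) : TM := tmul S (t0 b) (t3 b)
noncomputable def v14 (x1 x2 : ℝ) : ℝ := v0 x1 x2 * v3 x1 x2
theorem h14 (h : In b E x1 x2) : Enc S E (t14 b) (v14 x1 x2) := enc_mul hS (h0 h) (h3 h)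

def t16 (b : Bx) : TM := tscale 1 2 (t7 b)
noncomputable def v16 (x1 x2 : ℝ) : ℝ := ((1 : ℕ) : ℝ) / ((2 : ℕ) : ℝ) * v7 x1 x2
theorem h16 (h : In b E x1 x2) : Enc S E (t16 b) (v16 x1 x2) := enc_scale 1 (by norm_num) (h7 h)

def t17 (b : Bx) : TM := tsub (t16 b) (t14 b)
noncomputable def v17 (x1 x2 : ℝ) : ℝ := v16 x1 x2 - v14 x1 x2
theorem h17 (h : In b E x1 x2) : Enc S E (t17 b) (v17 x1 x2) := enc_sub (h16 h) (h14 h)

def t18 (b : Bx) : TM := tmul S (t13 b) (t2 b)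
noncomputable def v18 (x1 x2 : ℝ) : ℝ := v13 x1 x2 * v2 x1 x2
theorem h18 (h : In b E x1 x2) : Enc S E (t18 b) (v18 x1 x2) := enc_mul hS (h13 h) (h2 h)

def t19 (b : Bx) : TM := tmul S (t17 b) (t2 b)
noncomputable def v19 (x1 x2 : ℝ) : ℝ := v17 x1 x2 * v2 x1 x2
theorem h19 (h : In b E x1 x2) : Enc S E (t19 b) (v19 x1 x2) := enc_mul hS (h17 h) (h2 h)

def t25 (b : Bx) : TM := tsub (t1 b) (t19 b)
noncomputable def v25 (x1 x2 : ℝ) : ℝ := v1 x1 x2 - v19 x1 x2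
theorem h25 (h : In b E x1 x2) : Enc S E (t25 b) (v25 x1 x2) := enc_sub (h1 h) (h19 h)

def t26 (b : Bx) : TM := tsq S (t1 b)
noncomputable def v26 (x1 x2 : ℝ) : ℝ := (v1 x1 x2) ^ 2
theorem h26 (h : In b E x1 x2) : Enc S E (t26 b) (v26 x1 x2) := enc_sq hS (h1 h)

def t27 (_b : Bx) : TM := tconst (Nat.mul 3 S) 0 0
noncomputable def v27 (_x1 _x2 : ℝ) : ℝ := ((3 : ℕ) : ℝ)
theorem h27 (_h : In b E x1 x2) : Enc S E (t27 b) (v27 x1 x2) := enc_nc E 3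

def t28 (b : Bx) : TM := tsub (t27 b) (t26 b)
noncomputable def v28 (x1 x2 : ℝ) : ℝ := v27 x1 x2 - v26 x1 x2
theorem h28 (h : In b E x1 x2) : Enc S E (t28 b) (v28 x1 x2) := enc_sub (h27 h) (h26 h)

def t29 (b : Bx) : TM := tsqrt S (t28 b)
noncomputable def v29 (x1 x2 : ℝ) : ℝ := Real.sqrt (v28 x1 x2)
theorem h29 (h : In b E x1 x2) : Enc S E (t29 b) (v29 x1 x2) := enc_sqrt hS (h28 h)

def t32 (b : Bx) : TM := tsub (t7 b) (t29 b)
noncomputable def v32 (x1 x2 : ℝ) : ℝ := v7 x1 x2 - v29 x1 x2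
theorem h32 (h : In b E x1 x2) : Enc S E (t32 b) (v32 x1 x2) := enc_sub (h7 h) (h29 h)

def t33 (b : Bx) : TM := tadd (t0 b) (t1 b)
noncomputable def v33 (x1 x2 : ℝ) : ℝ := v0 x1 x2 + v1 x1 x2
theorem h33 (h : In b E x1 x2) : Enc S E (t33 b) (v33 x1 x2) := enc_add (h0 h) (h1 h)

def t34 (b : Bx) : TM := tnat 2 (t7 b)
noncomputable def v34 (x1 x2 : ℝ) : ℝ := ((2 : ℕ) : ℝ) * v7 x1 x2
theorem h34 (h : In b E x1 x2) : Enc S E (t34 b) (v34 x1 x2) := enc_nat 2 (h7 h)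

def t35 (b : Bx) : TM := tadd (t5 b) (t34 b)
noncomputable def v35 (x1 x2 : ℝ) : ℝ := v5 x1 x2 + v34 x1 x2
theorem h35 (h : In b E x1 x2) : Enc S E (t35 b) (v35 x1 x2) := enc_add (h5 h) (h34 h)

def t36 (b : Bx) : TM := tmul S (t2 b) (t0 b)
noncomputable def v36 (x1 x2 : ℝ) : ℝ := v2 x1 x2 * v0 x1 x2
theorem h36 (h : In b E x1 x2) : Enc S E (t36 b) (v36 x1 x2) := enc_mul hS (h2 h) (h0 h)

def t37 (b : Bx) : TM := tsub (t36 b) (t7 b)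
noncomputable def v37 (x1 x2 : ℝ) : ℝ := v36 x1 x2 - v7 x1 x2
theorem h37 (h : In b E x1 x2) : Enc S E (t37 b) (v37 x1 x2) := enc_sub (h36 h) (h7 h)

def t38 (b : Bx) : TM := tmul S (t35 b) (t37 b)
noncomputable def v38 (x1 x2 : ℝ) : ℝ := v35 x1 x2 * v37 x1 x2
theorem h38 (h : In b E x1 x2) : Enc S E (t38 b) (v38 x1 x2) := enc_mul hS (h35 h) (h37 h)

def t39 (b : Bx) : TM := tadd (t5 b) (t36 b)
noncomputable def v39 (x1 x2 : ℝ) : ℝ := v5 x1 x2 + v36 x1 x2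
theorem h39 (h : In b E x1 x2) : Enc S E (t39 b) (v39 x1 x2) := enc_add (h5 h) (h36 h)

def t40 (b : Bx) : TM := tsub (t39 b) (t7 b)
noncomputable def v40 (x1 x2 : ℝ) : ℝ := v39 x1 x2 - v7 x1 x2
theorem h40 (h : In b E x1 x2) : Enc S E (t40 b) (v40 x1 x2) := enc_sub (h39 h) (h7 h)

def t41 (b : Bx) : TM := tnat 2 (t40 b)
noncomputable def v41 (x1 x2 : ℝ) : ℝ := ((2 : ℕ) : ℝ) * v40 x1 x2
theorem h41 (h : In b E x1 x2) : Enc S E (t41 b) (v41 x1 x2) := enc_nat 2 (h40 h)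

def t42 (b : Bx) : TM := tinv S (t41 b)
noncomputable def v42 (x1 x2 : ℝ) : ℝ := (v41 x1 x2)⁻¹
theorem h42 (h : In b E x1 x2) : Enc S E (t42 b) (v42 x1 x2) := enc_inv hS (h41 h)

def t43 (b : Bx) : TM := tmul S (t38 b) (t42 b)
noncomputable def v43 (x1 x2 : ℝ) : ℝ := v38 x1 x2 * v42 x1 x2
theorem h43 (h : In b E x1 x2) : Enc S E (t43 b) (v43 x1 x2) := enc_mul hS (h38 h) (h42 h)

def t44 (_b : Bx) : TM := tconst (Nat.div (Nat.mul 3 S) 2) 0 1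
noncomputable def v44 (_x1 _x2 : ℝ) : ℝ := ((3 : ℕ) : ℝ) / ((2 : ℕ) : ℝ)
theorem h44 (_h : In b E x1 x2) : Enc S E (t44 b) (v44 x1 x2) := enc_rat E 3 (by norm_num)

def t45 (b : Bx) : TM := tadd (t29 b) (t44 b)
noncomputable def v45 (x1 x2 : ℝ) : ℝ := v29 x1 x2 + v44 x1 x2
theorem h45 (h : In b E x1 x2) : Enc S E (t45 b) (v45 x1 x2) := enc_add (h29 h) (h44 h)

def t47 (b : Bx) : TM := tsub (t3 b) (t1 b)
noncomputable def v47 (x1 x2 : ℝ) : ℝ := v3 x1 x2 - v1 x1 x2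
theorem h47 (h : In b E x1 x2) : Enc S E (t47 b) (v47 x1 x2) := enc_sub (h3 h) (h1 h)

def t48 (b : Bx) : TM := tadd (t3 b) (t1 b)
noncomputable def v48 (x1 x2 : ℝ) : ℝ := v3 x1 x2 + v1 x1 x2
theorem h48 (h : In b E x1 x2) : Enc S E (t48 b) (v48 x1 x2) := enc_add (h3 h) (h1 h)

def t49 (b : Bx) : TM := tmul S (t47 b) (t48 b)
noncomputable def v49 (x1 x2 : ℝ) : ℝ := v47 x1 x2 * v48 x1 x2
theorem h49 (h : In b E x1 x2) : Enc S E (t49 b) (v49 x1 x2) := enc_mul hS (h47 h) (h48 h)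

def t50 (b : Bx) : TM := tinv S (t49 b)
noncomputable def v50 (x1 x2 : ℝ) : ℝ := (v49 x1 x2)⁻¹
theorem h50 (h : In b E x1 x2) : Enc S E (t50 b) (v50 x1 x2) := enc_inv hS (h49 h)

def t53 (b : Bx) : TM := tsq S (t32 b)
noncomputable def v53 (x1 x2 : ℝ) : ℝ := (v32 x1 x2) ^ 2
theorem h53 (h : In b E x1 x2) : Enc S E (t53 b) (v53 x1 x2) := enc_sq hS (h32 h)

def t54 (b : Bx) : TM := tsq S (t33 b)
noncomputable def v54 (x1 x2 : ℝ) : ℝ := (v33 x1 x2) ^ 2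
theorem h54 (h : In b E x1 x2) : Enc S E (t54 b) (v54 x1 x2) := enc_sq hS (h33 h)

def t55 (b : Bx) : TM := tadd (t53 b) (t54 b)
noncomputable def v55 (x1 x2 : ℝ) : ℝ := v53 x1 x2 + v54 x1 x2
theorem h55 (h : In b E x1 x2) : Enc S E (t55 b) (v55 x1 x2) := enc_add (h53 h) (h54 h)

def t58 (b : Bx) : TM := tsq S (t19 b)
noncomputable def v58 (x1 x2 : ℝ) : ℝ := (v19 x1 x2) ^ 2
theorem h58 (h : In b E x1 x2) : Enc S E (t58 b) (v58 x1 x2) := enc_sq hS (h19 h)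

def t59 (b : Bx) : TM := tadd (t1 b) (t19 b)
noncomputable def v59 (x1 x2 : ℝ) : ℝ := v1 x1 x2 + v19 x1 x2
theorem h59 (h : In b E x1 x2) : Enc S E (t59 b) (v59 x1 x2) := enc_add (h1 h) (h19 h)

def t62 (b : Bx) : TM := tsub (t29 b) (t18 b)
noncomputable def v62 (x1 x2 : ℝ) : ℝ := v29 x1 x2 - v18 x1 x2
theorem h62 (h : In b E x1 x2) : Enc S E (t62 b) (v62 x1 x2) := enc_sub (h29 h) (h18 h)

def t63 (b : Bx) : TM := tinv S (t62 b)
noncomputable def v63 (x1 x2 : ℝ) : ℝ := (v62 x1 x2)⁻¹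
theorem h63 (h : In b E x1 x2) : Enc S E (t63 b) (v63 x1 x2) := enc_inv hS (h62 h)

def t64 (b : Bx) : TM := tmul S (t59 b) (t63 b)
noncomputable def v64 (x1 x2 : ℝ) : ℝ := v59 x1 x2 * v63 x1 x2
theorem h64 (h : In b E x1 x2) : Enc S E (t64 b) (v64 x1 x2) := enc_mul hS (h59 h) (h63 h)

def t66 (b : Bx) : TM := tadd (t7 b) (t18 b)
noncomputable def v66 (x1 x2 : ℝ) : ℝ := v7 x1 x2 + v18 x1 x2
theorem h66 (h : In b E x1 x2) : Enc S E (t66 b) (v66 x1 x2) := enc_add (h7 h) (h18 h)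

def t68 (b : Bx) : TM := tadd (t32 b) (t66 b)
noncomputable def v68 (x1 x2 : ℝ) : ℝ := v32 x1 x2 + v66 x1 x2
theorem h68 (h : In b E x1 x2) : Enc S E (t68 b) (v68 x1 x2) := enc_add (h32 h) (h66 h)

def t69 (b : Bx) : TM := tmul S (t64 b) (t68 b)
noncomputable def v69 (x1 x2 : ℝ) : ℝ := v64 x1 x2 * v68 x1 x2
theorem h69 (h : In b E x1 x2) : Enc S E (t69 b) (v69 x1 x2) := enc_mul hS (h64 h) (h68 h)

def t70 (b : Bx) : TM := tadd (t0 b) (t19 b)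
noncomputable def v70 (x1 x2 : ℝ) : ℝ := v0 x1 x2 + v19 x1 x2
theorem h70 (h : In b E x1 x2) : Enc S E (t70 b) (v70 x1 x2) := enc_add (h0 h) (h19 h)

def t72 (b : Bx) : TM := tadd (t33 b) (t70 b)
noncomputable def v72 (x1 x2 : ℝ) : ℝ := v33 x1 x2 + v70 x1 x2
theorem h72 (h : In b E x1 x2) : Enc S E (t72 b) (v72 x1 x2) := enc_add (h33 h) (h70 h)

def t74 (b : Bx) : TM := tadd (t69 b) (t72 b)
noncomputable def v74 (x1 x2 : ℝ) : ℝ := v69 x1 x2 + v72 x1 x2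
theorem h74 (h : In b E x1 x2) : Enc S E (t74 b) (v74 x1 x2) := enc_add (h69 h) (h72 h)

def t76 (b : Bx) : TM := tsub (t29 b) (t7 b)
noncomputable def v76 (x1 x2 : ℝ) : ℝ := v29 x1 x2 - v7 x1 x2
theorem h76 (h : In b E x1 x2) : Enc S E (t76 b) (v76 x1 x2) := enc_sub (h29 h) (h7 h)

def t77 (b : Bx) : TM := tsub (t5 b) (t54 b)
noncomputable def v77 (x1 x2 : ℝ) : ℝ := v5 x1 x2 - v54 x1 x2
theorem h77 (h : In b E x1 x2) : Enc S E (t77 b) (v77 x1 x2) := enc_sub (h5 h) (h54 h)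

def t78 (b : Bx) : TM := tsqrt S (t77 b)
noncomputable def v78 (x1 x2 : ℝ) : ℝ := Real.sqrt (v77 x1 x2)
theorem h78 (h : In b E x1 x2) : Enc S E (t78 b) (v78 x1 x2) := enc_sqrt hS (h77 h)

def t79 (b : Bx) : TM := tadd (t14 b) (t16 b)
noncomputable def v79 (x1 x2 : ℝ) : ℝ := v14 x1 x2 + v16 x1 x2
theorem h79 (h : In b E x1 x2) : Enc S E (t79 b) (v79 x1 x2) := enc_add (h14 h) (h16 h)

def t82 (b : Bx) : TM := tmul S (t2 b) (t33 b)
noncomputable def v82 (x1 x2 : ℝ) : ℝ := v2 x1 x2 * v33 x1 x2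
theorem h82 (h : In b E x1 x2) : Enc S E (t82 b) (v82 x1 x2) := enc_mul hS (h2 h) (h33 h)

def t83 (b : Bx) : TM := tsub (t82 b) (t78 b)
noncomputable def v83 (x1 x2 : ℝ) : ℝ := v82 x1 x2 - v78 x1 x2
theorem h83 (h : In b E x1 x2) : Enc S E (t83 b) (v83 x1 x2) := enc_sub (h82 h) (h78 h)

def t85 (b : Bx) : TM := tadd (t5 b) (t82 b)
noncomputable def v85 (x1 x2 : ℝ) : ℝ := v5 x1 x2 + v82 x1 x2
theorem h85 (h : In b E x1 x2) : Enc S E (t85 b) (v85 x1 x2) := enc_add (h5 h) (h82 h)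

def t86 (b : Bx) : TM := tsub (t85 b) (t78 b)
noncomputable def v86 (x1 x2 : ℝ) : ℝ := v85 x1 x2 - v78 x1 x2
theorem h86 (h : In b E x1 x2) : Enc S E (t86 b) (v86 x1 x2) := enc_sub (h85 h) (h78 h)

def t87 (b : Bx) : TM := tnat 2 (t86 b)
noncomputable def v87 (x1 x2 : ℝ) : ℝ := ((2 : ℕ) : ℝ) * v86 x1 x2
theorem h87 (h : In b E x1 x2) : Enc S E (t87 b) (v87 x1 x2) := enc_nat 2 (h86 h)

def t88 (b : Bx) : TM := tinv S (t87 b)
noncomputable def v88 (x1 x2 : ℝ) : ℝ := (v87 x1 x2)⁻¹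
theorem h88 (h : In b E x1 x2) : Enc S E (t88 b) (v88 x1 x2) := enc_inv hS (h87 h)

def t92 (b : Bx) : TM := tadd (t78 b) (t79 b)
noncomputable def v92 (x1 x2 : ℝ) : ℝ := v78 x1 x2 + v79 x1 x2
theorem h92 (h : In b E x1 x2) : Enc S E (t92 b) (v92 x1 x2) := enc_add (h78 h) (h79 h)

def t93 (b : Bx) : TM := tinv S (t92 b)
noncomputable def v93 (x1 x2 : ℝ) : ℝ := (v92 x1 x2)⁻¹
theorem h93 (h : In b E x1 x2) : Enc S E (t93 b) (v93 x1 x2) := enc_inv hS (h92 h)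

def t94 (b : Bx) : TM := tmul S (t72 b) (t93 b)
noncomputable def v94 (x1 x2 : ℝ) : ℝ := v72 x1 x2 * v93 x1 x2
theorem h94 (h : In b E x1 x2) : Enc S E (t94 b) (v94 x1 x2) := enc_mul hS (h72 h) (h93 h)

def t96 (b : Bx) : TM := tnat 2 (t79 b)
noncomputable def v96 (x1 x2 : ℝ) : ℝ := ((2 : ℕ) : ℝ) * v79 x1 x2
theorem h96 (h : In b E x1 x2) : Enc S E (t96 b) (v96 x1 x2) := enc_nat 2 (h79 h)

def t97 (b : Bx) : TM := tnat 2 (t94 b)
noncomputable def v97 (x1 x2 : ℝ) : ℝ := ((2 : ℕ) : ℝ) * v94 x1 x2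
theorem h97 (h : In b E x1 x2) : Enc S E (t97 b) (v97 x1 x2) := enc_nat 2 (h94 h)

def t99 (b : Bx) : TM := tadd (t5 b) (t96 b)
noncomputable def v99 (x1 x2 : ℝ) : ℝ := v5 x1 x2 + v96 x1 x2
theorem h99 (h : In b E x1 x2) : Enc S E (t99 b) (v99 x1 x2) := enc_add (h5 h) (h96 h)

def t100 (b : Bx) : TM := tmul S (t2 b) (t70 b)
noncomputable def v100 (x1 x2 : ℝ) : ℝ := v2 x1 x2 * v70 x1 x2
theorem h100 (h : In b E x1 x2) : Enc S E (t100 b) (v100 x1 x2) := enc_mul hS (h2 h) (h70 h)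

def t101 (b : Bx) : TM := tsub (t100 b) (t79 b)
noncomputable def v101 (x1 x2 : ℝ) : ℝ := v100 x1 x2 - v79 x1 x2
theorem h101 (h : In b E x1 x2) : Enc S E (t101 b) (v101 x1 x2) := enc_sub (h100 h) (h79 h)

def t102 (b : Bx) : TM := tadd (t2 b) (t94 b)
noncomputable def v102 (x1 x2 : ℝ) : ℝ := v2 x1 x2 + v94 x1 x2
theorem h102 (h : In b E x1 x2) : Enc S E (t102 b) (v102 x1 x2) := enc_add (h2 h) (h94 h)

def t103 (b : Bx) : TM := tmul S (t99 b) (t101 b)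
noncomputable def v103 (x1 x2 : ℝ) : ℝ := v99 x1 x2 * v101 x1 x2
theorem h103 (h : In b E x1 x2) : Enc S E (t103 b) (v103 x1 x2) := enc_mul hS (h99 h) (h101 h)

def t104 (b : Bx) : TM := tmul S (t97 b) (t83 b)
noncomputable def v104 (x1 x2 : ℝ) : ℝ := v97 x1 x2 * v83 x1 x2
theorem h104 (h : In b E x1 x2) : Enc S E (t104 b) (v104 x1 x2) := enc_mul hS (h97 h) (h83 h)

def t106 (b : Bx) : TM := tmul S (t99 b) (t102 b)
noncomputable def v106 (x1 x2 : ℝ) : ℝ := v99 x1 x2 * v102 x1 x2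
theorem h106 (h : In b E x1 x2) : Enc S E (t106 b) (v106 x1 x2) := enc_mul hS (h99 h) (h102 h)

def t107 (b : Bx) : TM := tsub (t106 b) (t104 b)
noncomputable def v107 (x1 x2 : ℝ) : ℝ := v106 x1 x2 - v104 x1 x2
theorem h107 (h : In b E x1 x2) : Enc S E (t107 b) (v107 x1 x2) := enc_sub (h106 h) (h104 h)

def t108 (b : Bx) : TM := tadd (t5 b) (t100 b)
noncomputable def v108 (x1 x2 : ℝ) : ℝ := v5 x1 x2 + v100 x1 x2
theorem h108 (h : In b E x1 x2) : Enc S E (t108 b) (v108 x1 x2) := enc_add (h5 h) (h100 h)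

def t109 (b : Bx) : TM := tsub (t108 b) (t79 b)
noncomputable def v109 (x1 x2 : ℝ) : ℝ := v108 x1 x2 - v79 x1 x2
theorem h109 (h : In b E x1 x2) : Enc S E (t109 b) (v109 x1 x2) := enc_sub (h108 h) (h79 h)

def t110 (b : Bx) : TM := tnat 2 (t109 b)
noncomputable def v110 (x1 x2 : ℝ) : ℝ := ((2 : ℕ) : ℝ) * v109 x1 x2
theorem h110 (h : In b E x1 x2) : Enc S E (t110 b) (v110 x1 x2) := enc_nat 2 (h109 h)

def t111 (b : Bx) : TM := tnat 2 (t102 b)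
noncomputable def v111 (x1 x2 : ℝ) : ℝ := ((2 : ℕ) : ℝ) * v102 x1 x2
theorem h111 (h : In b E x1 x2) : Enc S E (t111 b) (v111 x1 x2) := enc_nat 2 (h102 h)

def t112 (b : Bx) : TM := tinv S (t110 b)
noncomputable def v112 (x1 x2 : ℝ) : ℝ := (v110 x1 x2)⁻¹
theorem h112 (h : In b E x1 x2) : Enc S E (t112 b) (v112 x1 x2) := enc_inv hS (h110 h)

def t113 (b : Bx) : TM := tmul S (t88 b) (t112 b)
noncomputable def v113 (x1 x2 : ℝ) : ℝ := v88 x1 x2 * v112 x1 x2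
theorem h113 (h : In b E x1 x2) : Enc S E (t113 b) (v113 x1 x2) := enc_mul hS (h88 h) (h112 h)

def t114 (b : Bx) : TM := tmul S (t111 b) (t113 b)
noncomputable def v114 (x1 x2 : ℝ) : ℝ := v111 x1 x2 * v113 x1 x2
theorem h114 (h : In b E x1 x2) : Enc S E (t114 b) (v114 x1 x2) := enc_mul hS (h111 h) (h113 h)

def t117 (b : Bx) : TM := tmul S (t107 b) (t88 b)
noncomputable def v117 (x1 x2 : ℝ) : ℝ := v107 x1 x2 * v88 x1 x2
theorem h117 (h : In b E x1 x2) : Enc S E (t117 b) (v117 x1 x2) := enc_mul hS (h107 h) (h88 h)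

def t118 (b : Bx) : TM := tmul S (t103 b) (t114 b)
noncomputable def v118 (x1 x2 : ℝ) : ℝ := v103 x1 x2 * v114 x1 x2
theorem h118 (h : In b E x1 x2) : Enc S E (t118 b) (v118 x1 x2) := enc_mul hS (h103 h) (h114 h)

def t120 (b : Bx) : TM := tsub (t117 b) (t118 b)
noncomputable def v120 (x1 x2 : ℝ) : ℝ := v117 x1 x2 - v118 x1 x2
theorem h120 (h : In b E x1 x2) : Enc S E (t120 b) (v120 x1 x2) := enc_sub (h117 h) (h118 h)

def t121 (b : Bx) : TM := kxq1_t (t76 b) (t33 b)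
noncomputable def v121 (x1 x2 : ℝ) : ℝ := kxq1_v (v76 x1 x2) (v33 x1 x2)
theorem h121 (h : In b E x1 x2) : Enc S E (t121 b) (v121 x1 x2) := kxq1_enc (h76 h) (h33 h)

def t122 (b : Bx) : TM := tadd (t76 b) (t78 b)
noncomputable def v122 (x1 x2 : ℝ) : ℝ := v76 x1 x2 + v78 x1 x2
theorem h122 (h : In b E x1 x2) : Enc S E (t122 b) (v122 x1 x2) := enc_add (h76 h) (h78 h)

def t123 (b : Bx) : TM := f2m_t (t33 b)
noncomputable def v123 (x1 x2 : ℝ) : ℝ := f2m_v (v33 x1 x2)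
theorem h123 (h : In b E x1 x2) : Enc S E (t123 b) (v123 x1 x2) := f2m_enc (h33 h)

def t124 (b : Bx) : TM := tsub (t123 b) (t76 b)
noncomputable def v124 (x1 x2 : ℝ) : ℝ := v123 x1 x2 - v76 x1 x2
theorem h124 (h : In b E x1 x2) : Enc S E (t124 b) (v124 x1 x2) := enc_sub (h123 h) (h76 h)

def t130 (b : Bx) : TM := tmul S (t74 b) (t121 b)
noncomputable def v130 (x1 x2 : ℝ) : ℝ := v74 x1 x2 * v121 x1 x2
theorem h130 (h : In b E x1 x2) : Enc S E (t130 b) (v130 x1 x2) := enc_mul hS (h74 h) (h121 h)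

def t131 (b : Bx) : TM := tinv S (t122 b)
noncomputable def v131 (x1 x2 : ℝ) : ℝ := (v122 x1 x2)⁻¹
theorem h131 (h : In b E x1 x2) : Enc S E (t131 b) (v131 x1 x2) := enc_inv hS (h122 h)

def t132 (b : Bx) : TM := tmul S (t130 b) (t131 b)
noncomputable def v132 (x1 x2 : ℝ) : ℝ := v130 x1 x2 * v131 x1 x2
theorem h132 (h : In b E x1 x2) : Enc S E (t132 b) (v132 x1 x2) := enc_mul hS (h130 h) (h131 h)

def t133 (b : Bx) : TM := tadd (t120 b) (t132 b)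
noncomputable def v133 (x1 x2 : ℝ) : ℝ := v120 x1 x2 + v132 x1 x2
theorem h133 (h : In b E x1 x2) : Enc S E (t133 b) (v133 x1 x2) := enc_add (h120 h) (h132 h)

def t134 (b : Bx) : TM := tneg (t133 b)
noncomputable def v134 (x1 x2 : ℝ) : ℝ := -(v133 x1 x2)
theorem h134 (h : In b E x1 x2) : Enc S E (t134 b) (v134 x1 x2) := enc_neg (h133 h)

def t135 (b : Bx) : TM := tmul S (t7 b) (t1 b)
noncomputable def v135 (x1 x2 : ℝ) : ℝ := v7 x1 x2 * v1 x1 x2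
theorem h135 (h : In b E x1 x2) : Enc S E (t135 b) (v135 x1 x2) := enc_mul hS (h7 h) (h1 h)

def t136 (b : Bx) : TM := tmul S (t29 b) (t0 b)
noncomputable def v136 (x1 x2 : ℝ) : ℝ := v29 x1 x2 * v0 x1 x2
theorem h136 (h : In b E x1 x2) : Enc S E (t136 b) (v136 x1 x2) := enc_mul hS (h29 h) (h0 h)

def t138 (b : Bx) : TM := tadd (t135 b) (t136 b)
noncomputable def v138 (x1 x2 : ℝ) : ℝ := v135 x1 x2 + v136 x1 x2
theorem h138 (h : In b E x1 x2) : Enc S E (t138 b) (v138 x1 x2) := enc_add (h135 h) (h136 h)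

def t139 (b : Bx) : TM := tinv S (t2 b)
noncomputable def v139 (x1 x2 : ℝ) : ℝ := (v2 x1 x2)⁻¹
theorem h139 (h : In b E x1 x2) : Enc S E (t139 b) (v139 x1 x2) := enc_inv hS (h2 h)

def t140 (b : Bx) : TM := tmul S (t138 b) (t139 b)
noncomputable def v140 (x1 x2 : ℝ) : ℝ := v138 x1 x2 * v139 x1 x2
theorem h140 (h : In b E x1 x2) : Enc S E (t140 b) (v140 x1 x2) := enc_mul hS (h138 h) (h139 h)

def t141 (b : Bx) : TM := tsub (t140 b) (t9 b)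
noncomputable def v141 (x1 x2 : ℝ) : ℝ := v140 x1 x2 - v9 x1 x2
theorem h141 (h : In b E x1 x2) : Enc S E (t141 b) (v141 x1 x2) := enc_sub (h140 h) (h9 h)

def t145 (b : Bx) : TM := tmul S (t64 b) (t0 b)
noncomputable def v145 (x1 x2 : ℝ) : ℝ := v64 x1 x2 * v0 x1 x2
theorem h145 (h : In b E x1 x2) : Enc S E (t145 b) (v145 x1 x2) := enc_mul hS (h64 h) (h0 h)

def t148 (b : Bx) : TM := tsub (t7 b) (t145 b)
noncomputable def v148 (x1 x2 : ℝ) : ℝ := v7 x1 x2 - v145 x1 x2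
theorem h148 (h : In b E x1 x2) : Enc S E (t148 b) (v148 x1 x2) := enc_sub (h7 h) (h145 h)

def t150 (b : Bx) : TM := tmul S (t148 b) (t139 b)
noncomputable def v150 (x1 x2 : ℝ) : ℝ := v148 x1 x2 * v139 x1 x2
theorem h150 (h : In b E x1 x2) : Enc S E (t150 b) (v150 x1 x2) := enc_mul hS (h148 h) (h139 h)

def t152 (b : Bx) : TM := tsub (t0 b) (t3 b)
noncomputable def v152 (x1 x2 : ℝ) : ℝ := v0 x1 x2 - v3 x1 x2
theorem h152 (h : In b E x1 x2) : Enc S E (t152 b) (v152 x1 x2) := enc_sub (h0 h) (h3 h)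

def t153 (b : Bx) : TM := tsub (t33 b) (t3 b)
noncomputable def v153 (x1 x2 : ℝ) : ℝ := v33 x1 x2 - v3 x1 x2
theorem h153 (h : In b E x1 x2) : Enc S E (t153 b) (v153 x1 x2) := enc_sub (h33 h) (h3 h)

def t154 (b : Bx) : TM := tsub (t44 b) (t18 b)
noncomputable def v154 (x1 x2 : ℝ) : ℝ := v44 x1 x2 - v18 x1 x2
theorem h154 (h : In b E x1 x2) : Enc S E (t154 b) (v154 x1 x2) := enc_sub (h44 h) (h18 h)

def t155 (b : Bx) : TM := tmul S (t58 b) (t154 b)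
noncomputable def v155 (x1 x2 : ℝ) : ℝ := v58 x1 x2 * v154 x1 x2
theorem h155 (h : In b E x1 x2) : Enc S E (t155 b) (v155 x1 x2) := enc_mul hS (h58 h) (h154 h)

def t156 (b : Bx) : TM := tmul S (t59 b) (t45 b)
noncomputable def v156 (x1 x2 : ℝ) : ℝ := v59 x1 x2 * v45 x1 x2
theorem h156 (h : In b E x1 x2) : Enc S E (t156 b) (v156 x1 x2) := enc_mul hS (h59 h) (h45 h)

def t157 (b : Bx) : TM := tmul S (t58 b) (t64 b)
noncomputable def v157 (x1 x2 : ℝ) : ℝ := v58 x1 x2 * v64 x1 x2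
theorem h157 (h : In b E x1 x2) : Enc S E (t157 b) (v157 x1 x2) := enc_mul hS (h58 h) (h64 h)

def t159 (b : Bx) : TM := tsub (t156 b) (t157 b)
noncomputable def v159 (x1 x2 : ℝ) : ℝ := v156 x1 x2 - v157 x1 x2
theorem h159 (h : In b E x1 x2) : Enc S E (t159 b) (v159 x1 x2) := enc_sub (h156 h) (h157 h)

def t160 (b : Bx) : TM := tsub (t3 b) (t19 b)
noncomputable def v160 (x1 x2 : ℝ) : ℝ := v3 x1 x2 - v19 x1 x2
theorem h160 (h : In b E x1 x2) : Enc S E (t160 b) (v160 x1 x2) := enc_sub (h3 h) (h19 h)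

def t162 (b : Bx) : TM := tadd (t3 b) (t19 b)
noncomputable def v162 (x1 x2 : ℝ) : ℝ := v3 x1 x2 + v19 x1 x2
theorem h162 (h : In b E x1 x2) : Enc S E (t162 b) (v162 x1 x2) := enc_add (h3 h) (h19 h)

def t163 (b : Bx) : TM := tmul S (t160 b) (t162 b)
noncomputable def v163 (x1 x2 : ℝ) : ℝ := v160 x1 x2 * v162 x1 x2
theorem h163 (h : In b E x1 x2) : Enc S E (t163 b) (v163 x1 x2) := enc_mul hS (h160 h) (h162 h)

def t165 (b : Bx) : TM := tsub (t160 b) (t48 b)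
noncomputable def v165 (x1 x2 : ℝ) : ℝ := v160 x1 x2 - v48 x1 x2
theorem h165 (h : In b E x1 x2) : Enc S E (t165 b) (v165 x1 x2) := enc_sub (h160 h) (h48 h)

def t166 (b : Bx) : TM := tinv S (t163 b)
noncomputable def v166 (x1 x2 : ℝ) : ℝ := (v163 x1 x2)⁻¹
theorem h166 (h : In b E x1 x2) : Enc S E (t166 b) (v166 x1 x2) := enc_inv hS (h163 h)

def t167 (b : Bx) : TM := tmul S (t50 b) (t166 b)
noncomputable def v167 (x1 x2 : ℝ) : ℝ := v50 x1 x2 * v166 x1 x2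
theorem h167 (h : In b E x1 x2) : Enc S E (t167 b) (v167 x1 x2) := enc_mul hS (h50 h) (h166 h)

def t168 (b : Bx) : TM := tmul S (t165 b) (t167 b)
noncomputable def v168 (x1 x2 : ℝ) : ℝ := v165 x1 x2 * v167 x1 x2
theorem h168 (h : In b E x1 x2) : Enc S E (t168 b) (v168 x1 x2) := enc_mul hS (h165 h) (h167 h)

def t171 (b : Bx) : TM := tmul S (t159 b) (t50 b)
noncomputable def v171 (x1 x2 : ℝ) : ℝ := v159 x1 x2 * v50 x1 x2
theorem h171 (h : In b E x1 x2) : Enc S E (t171 b) (v171 x1 x2) := enc_mul hS (h159 h) (h50 h)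

def t172 (b : Bx) : TM := tmul S (t155 b) (t168 b)
noncomputable def v172 (x1 x2 : ℝ) : ℝ := v155 x1 x2 * v168 x1 x2
theorem h172 (h : In b E x1 x2) : Enc S E (t172 b) (v172 x1 x2) := enc_mul hS (h155 h) (h168 h)

def t174 (b : Bx) : TM := tsub (t171 b) (t172 b)
noncomputable def v174 (x1 x2 : ℝ) : ℝ := v171 x1 x2 - v172 x1 x2
theorem h174 (h : In b E x1 x2) : Enc S E (t174 b) (v174 x1 x2) := enc_sub (h171 h) (h172 h)

def t175 (b : Bx) : TM := tsub (t134 b) (t174 b)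
noncomputable def v175 (x1 x2 : ℝ) : ℝ := v134 x1 x2 - v174 x1 x2
theorem h175 (h : In b E x1 x2) : Enc S E (t175 b) (v175 x1 x2) := enc_sub (h134 h) (h174 h)

def t176 (b : Bx) : TM := tmul S (t152 b) (t174 b)
noncomputable def v176 (x1 x2 : ℝ) : ℝ := v152 x1 x2 * v174 x1 x2
theorem h176 (h : In b E x1 x2) : Enc S E (t176 b) (v176 x1 x2) := enc_mul hS (h152 h) (h174 h)

def t177 (b : Bx) : TM := tsub (t176 b) (t43 b)
noncomputable def v177 (x1 x2 : ℝ) : ℝ := v176 x1 x2 - v43 x1 x2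
theorem h177 (h : In b E x1 x2) : Enc S E (t177 b) (v177 x1 x2) := enc_sub (h176 h) (h43 h)

def t178 (b : Bx) : TM := tmul S (t1 b) (t175 b)
noncomputable def v178 (x1 x2 : ℝ) : ℝ := v1 x1 x2 * v175 x1 x2
theorem h178 (h : In b E x1 x2) : Enc S E (t178 b) (v178 x1 x2) := enc_mul hS (h1 h) (h175 h)

def t179 (b : Bx) : TM := tsub (t177 b) (t178 b)
noncomputable def v179 (x1 x2 : ℝ) : ℝ := v177 x1 x2 - v178 x1 x2
theorem h179 (h : In b E x1 x2) : Enc S E (t179 b) (v179 x1 x2) := enc_sub (h177 h) (h178 h)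

def t184 (b : Bx) : TM := tsub (t3 b) (t33 b)
noncomputable def v184 (x1 x2 : ℝ) : ℝ := v3 x1 x2 - v33 x1 x2
theorem h184 (h : In b E x1 x2) : Enc S E (t184 b) (v184 x1 x2) := enc_sub (h3 h) (h33 h)

def t185 (b : Bx) : TM := qn_t (t1 b) (t184 b) (t150 b) (t179 b) (t175 b)
noncomputable def v185 (x1 x2 : ℝ) : ℝ := qn_v (v1 x1 x2) (v184 x1 x2) (v150 x1 x2) (v179 x1 x2) (v175 x1 x2)
theorem h185 (h : In b E x1 x2) : Enc S E (t185 b) (v185 x1 x2) := qn_enc (h1 h) (h184 h) (h150 h) (h179 h) (h175 h)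

def t186 (b : Bx) : TM := tscale 1 4 (t2 b)
noncomputable def v186 (x1 x2 : ℝ) : ℝ := ((1 : ℕ) : ℝ) / ((4 : ℕ) : ℝ) * v2 x1 x2
theorem h186 (h : In b E x1 x2) : Enc S E (t186 b) (v186 x1 x2) := enc_scale 1 (by norm_num) (h2 h)

def t188 (b : Bx) : TM := tsub (t186 b) (t0 b)
noncomputable def v188 (x1 x2 : ℝ) : ℝ := v186 x1 x2 - v0 x1 x2
theorem h188 (h : In b E x1 x2) : Enc S E (t188 b) (v188 x1 x2) := enc_sub (h186 h) (h0 h)

def t190 (b : Bx) : TM := tsub (t1 b) (t186 b)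
noncomputable def v190 (x1 x2 : ℝ) : ℝ := v1 x1 x2 - v186 x1 x2
theorem h190 (h : In b E x1 x2) : Enc S E (t190 b) (v190 x1 x2) := enc_sub (h1 h) (h186 h)

def t192 (b : Bx) : TM := tsub (t186 b) (t33 b)
noncomputable def v192 (x1 x2 : ℝ) : ℝ := v186 x1 x2 - v33 x1 x2
theorem h192 (h : In b E x1 x2) : Enc S E (t192 b) (v192 x1 x2) := enc_sub (h186 h) (h33 h)

def t193 (_b : Bx) : TM := tconst (Nat.div (Nat.mul 1 S) 16) 0 1
noncomputable def v193 (_x1 _x2 : ℝ) : ℝ := ((1 : ℕ) : ℝ) / ((16 : ℕ) : ℝ)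
theorem h193 (_h : In b E x1 x2) : Enc S E (t193 b) (v193 x1 x2) := enc_rat E 1 (by norm_num)

def t194 (b : Bx) : TM := tsub (t25 b) (t193 b)
noncomputable def v194 (x1 x2 : ℝ) : ℝ := v25 x1 x2 - v193 x1 x2
theorem h194 (h : In b E x1 x2) : Enc S E (t194 b) (v194 x1 x2) := enc_sub (h25 h) (h193 h)

def t195 (b : Bx) : TM := tsub (t19 b) (t1 b)
noncomputable def v195 (x1 x2 : ℝ) : ℝ := v19 x1 x2 - v1 x1 x2
theorem h195 (h : In b E x1 x2) : Enc S E (t195 b) (v195 x1 x2) := enc_sub (h19 h) (h1 h)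

def t196 (b : Bx) : TM := tsub (t195 b) (t193 b)
noncomputable def v196 (x1 x2 : ℝ) : ℝ := v195 x1 x2 - v193 x1 x2
theorem h196 (h : In b E x1 x2) : Enc S E (t196 b) (v196 x1 x2) := enc_sub (h195 h) (h193 h)

def t197 (b : Bx) : TM := tsub (t33 b) (t2 b)
noncomputable def v197 (x1 x2 : ℝ) : ℝ := v33 x1 x2 - v2 x1 x2
theorem h197 (h : In b E x1 x2) : Enc S E (t197 b) (v197 x1 x2) := enc_sub (h33 h) (h2 h)

def t198 (b : Bx) : TM := tsub (t5 b) (t55 b)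
noncomputable def v198 (x1 x2 : ℝ) : ℝ := v5 x1 x2 - v55 x1 x2
theorem h198 (h : In b E x1 x2) : Enc S E (t198 b) (v198 x1 x2) := enc_sub (h5 h) (h55 h)

def t199 (b : Bx) : TM := tadd (t141 b) (t9 b)
noncomputable def v199 (x1 x2 : ℝ) : ℝ := v141 x1 x2 + v9 x1 x2
theorem h199 (h : In b E x1 x2) : Enc S E (t199 b) (v199 x1 x2) := enc_add (h141 h) (h9 h)

def t200 (b : Bx) : TM := tneg (t199 b)
noncomputable def v200 (x1 x2 : ℝ) : ℝ := -(v199 x1 x2)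
theorem h200 (h : In b E x1 x2) : Enc S E (t200 b) (v200 x1 x2) := enc_neg (h199 h)

def g0 (b : Bx) : Bool := and (pos (t74 b)) (and (pos (t28 b)) (and (pos (t62 b)) (and (pos (t77 b)) (and (pos (t92 b)) (and (pos (t87 b)) (and (pos (t110 b)) (and (pos (t122 b)) (and (pos (t124 b)) (and (pos (t49 b)) (and (pos (t163 b)) (and (pos (t41 b)) (or (pos (t195 b)) (pos (t185 b))))))))))))))

def l0 (b : Bx) : Nat := cond (g0 b) 0 (pickb 1 (t185 b) b)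

def P0 (x1 x2 : ℝ) : Prop := 0 < v74 x1 x2 ∧ 0 < v28 x1 x2 ∧ 0 < v62 x1 x2 ∧ 0 < v77 x1 x2 ∧ 0 < v92 x1 x2 ∧ 0 < v87 x1 x2 ∧ 0 < v110 x1 x2 ∧ 0 < v122 x1 x2 ∧ 0 < v124 x1 x2 ∧ 0 < v49 x1 x2 ∧ 0 < v163 x1 x2 ∧ 0 < v41 x1 x2 ∧ (0 < v195 x1 x2 ∨ 0 < v185 x1 x2)

theorem l0_sound (h : In b E x1 x2) (e : l0 b = 0) : P0 x1 x2 := by
  have e1 : g0 b = true := by
    rcases e2 : g0 b with _ | _
    · unfold l0 at e; rw [e2, cond_false] at e; exact absurd e (pickb_ne _ _ _)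
    · rfl
  exact ⟨pos_sound hS (h74 h) (Bool.and_eq_true_iff.mp e1).1, ⟨pos_sound hS (h28 h) (Bool.and_eq_true_iff.mp (Bool.and_eq_true_iff.mp e1).2).1, ⟨pos_sound hS (h62 h) (Bool.and_eq_true_iff.mp (Bool.and_eq_true_iff.mp (Bool.and_eq_true_iff.mp e1).2).2).1, ⟨pos_sound hS (h77 h) (Bool.and_eq_true_iff.mp (Bool.and_eq_true_iff.mp (Bool.and_eq_true_iff.mp (Bool.and_eq_true_iff.mp e1).2).2).2).1, ⟨pos_sound hS (h92 h) (Bool.and_eq_true_iff.mp (Bool.and_eq_true_iff.mp (Bool.and_eq_true_iff.mp (Bool.and_eq_true_iff.mp (Bool.and_eq_true_iff.mp e1).2).2).2).2).1, ⟨pos_sound hS (h87 h) (Bool.and_eq_true_iff.mp (Bool.and_eq_true_iff.mp (Bool.and_eq_true_iff.mp (Bool.and_eq_true_iff.mp (Bool.and_eq_true_iff.mp (Bool.and_eq_true_iff.mp e1).2).2).2).2).2).1, ⟨pos_sound hS (h110 h) (Bool.and_eq_true_iff.mp (Bool.and_eq_true_iff.mp (Bool.and_eq_true_iff.mp (Bool.and_eq_true_iff.mp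 (Bool.and_eq_true_iff.mp (Bool.and_eq_true_iff.mp (Bool.and_eq_true_iff.mp e1).2).2).2).2).2).2).1, ⟨pos_sound hS (h122 h) (Bool.and_eq_true_iff.mp (Bool.and_eq_true_iff.mp (Bool.and_eq_true_iff.mp (Bool.and_eq_true_iff.mp (Bool.and_eq_true_iff.mp (Bool.and_eq_true_iff.mp (Bool.and_eq_true_iff.mp (Bool.and_eq_true_iff.mp e1).2).2).2).2).2).2).2).1, ⟨pos_sound hS (h124 h) (Bool.and_eq_true_iff.mp (Bool.and_eq_true_iff.mp (Bool.and_eq_true_iff.mp (Bool.and_eq_true_iff.mp (Bool.and_eq_true_iff.mp (Bool.and_eq_true_iff.mp (Bool.and_eq_true_iff.mp (Bool.and_eq_true_iff.mp (Bool.and_eq_true_iff.mp e1).2).2).2).2).2).2).2).2).1, ⟨pos_sound hS (h49 h) (Bool.and_eq_true_iff.mp (Bool.and_eq_true_iff.mp (Bool.and_eq_true_iff.mp (Bool.and_eq_true_iff.mp (Bool.and_eq_true_iff.mp (Bool.and_eq_true_iff.mp (Bool.and_eq_true_iff.mp (Bool.and_eq_true_iff.mp (Bool.and_eq_true_iff.mp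 (Bool.and_eq_true_iff.mp e1).2).2).2).2).2).2).2).2).2).1, ⟨pos_sound hS (h163 h) (Bool.and_eq_true_iff.mp (Bool.and_eq_true_iff.mp (Bool.and_eq_true_iff.mp (Bool.and_eq_true_iff.mp (Bool.and_eq_true_iff.mp (Bool.and_eq_true_iff.mp (Bool.and_eq_true_iff.mp (Bool.and_eq_true_iff.mp (Bool.and_eq_true_iff.mp (Bool.and_eq_true_iff.mp (Bool.and_eq_true_iff.mp e1).2).2).2).2).2).2).2).2).2).2).1, ⟨pos_sound hS (h41 h) (Bool.and_eq_true_iff.mp (Bool.and_eq_true_iff.mp (Bool.and_eq_true_iff.mp (Bool.and_eq_true_iff.mp (Bool.and_eq_true_iff.mp (Bool.and_eq_true_iff.mp (Bool.and_eq_true_iff.mp (Bool.and_eq_true_iff.mp (Bool.and_eq_true_iff.mp (Bool.and_eq_true_iff.mp (Bool.and_eq_true_iff.mp (Bool.and_eq_true_iff.mp e1).2).2).2).2).2).2).2).2).2).2).2).1, ((Bool.or_eq_true_iff.mp (Bool.and_eq_true_iff.mp (Bool.and_eq_true_iff.mp (Bool.and_eq_true_iff.mp (Bool.and_eq_true_iff.mp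 (Bool.and_eq_true_iff.mp (Bool.and_eq_true_iff.mp (Bool.and_eq_true_iff.mp (Bool.and_eq_true_iff.mp (Bool.and_eq_true_iff.mp (Bool.and_eq_true_iff.mp (Bool.and_eq_true_iff.mp (Bool.and_eq_true_iff.mp e1).2).2).2).2).2).2).2).2).2).2).2).2).imp (fun a => pos_sound hS (h195 h) a) (fun a => pos_sound hS (h185 h) a))⟩⟩⟩⟩⟩⟩⟩⟩⟩⟩⟩⟩

def g1 (b : Bx) : Bool := or (pos (t188 b)) (or (pos (t152 b)) (or (pos (t190 b)) (or (pos (t192 b)) (or (pos (t153 b)) (or (pos (t194 b)) (or (pos (t196 b)) (or (pos (t197 b)) (or (pos (t198 b)) (pos (t200 b))))))))))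

def l1 (b : Bx) : Nat := cond (g1 b) 0 (l0 b)

def P1 (x1 x2 : ℝ) : Prop := (0 < v188 x1 x2 ∨ 0 < v152 x1 x2 ∨ 0 < v190 x1 x2 ∨ 0 < v192 x1 x2 ∨ 0 < v153 x1 x2 ∨ 0 < v194 x1 x2 ∨ 0 < v196 x1 x2 ∨ 0 < v197 x1 x2 ∨ 0 < v198 x1 x2 ∨ 0 < v200 x1 x2) ∨ (P0 x1 x2)

theorem l1_sound (h : In b E x1 x2) (e : l1 b = 0) : P1 x1 x2 := by
  unfold l1 at e
  rcases e1 : g1 b with _ | _
  · rw [e1, cond_false] at e
    have z0 : l0 b = 0 := e
    exact Or.inr (l0_sound h z0)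
  · exact Or.inl (((Bool.or_eq_true_iff.mp e1).imp (fun a => pos_sound hS (h188 h) a) (fun a => ((Bool.or_eq_true_iff.mp a).imp (fun a => pos_sound hS (h152 h) a) (fun a => ((Bool.or_eq_true_iff.mp a).imp (fun a => pos_sound hS (h190 h) a) (fun a => ((Bool.or_eq_true_iff.mp a).imp (fun a => pos_sound hS (h192 h) a) (fun a => ((Bool.or_eq_true_iff.mp a).imp (fun a => pos_sound hS (h153 h) a) (fun a => ((Bool.or_eq_true_iff.mp a).imp (fun a => pos_sound hS (h194 h) a) (fun a => ((Bool.or_eq_true_iff.mp a).imp (fun a => pos_sound hS (h196 h) a) (fun a => ((Bool.or_eq_true_iff.mp a).imp (fun a => pos_sound hS (h197 h) a) (fun a => ((Bool.or_eq_true_iff.mp a).imp (fun a => pos_sound hS (h198 h) a) (fun a => pos_sound hS (h200 h) a)))))))))))))))))))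

def f (b : Bx) : Nat := l1 b

/-- the statement -/
def Q (x1 x2 : ℝ) : Prop := P1 x1 x2

theorem f_sound (b : Bx) (hb : f b = 0) (x1 x2 : ℝ) (hm : Mem S b x1 x2) : Q x1 x2 := by
  obtain ⟨E, h⟩ := pt_of_mem hm
  have h : In b E x1 x2 := h
  unfold f at hb
  have e := hb
  have z1 : l1 b = 0 := e
  exact (l1_sound h z1)

/-- the box -/
def b0 : Bx := ⟨697415773, 0, 232471926, 232471924, 0, 232471926⟩

theorem chk_all {n : ℕ} {b : Bx} (h : chk f n b = true) (x1 x2 : ℝ) (hm : Mem S b x1 x2) : Q x1 x2 :=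
  chk_sound (fun b hb x1 x2 hm => f_sound b hb x1 x2 hm) n b h x1 x2 hm


end Pool.Agent.Strip051.LB.ChA03V2_pm_101
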