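import Pool.Agent.Strip051.LB.ChA03V2_pm_101.Defs
import Pool.Agent.Strip051.LB.Slope
import Pool.Agent.Strip051.LB.Star
import Pool.Agent.Strip051.LB.Cf

/-! # LINE tight chart ChA03V2_pm_101: slopes -/

namespace Pool.Agent.Strip051.LB.ChA03V2_pm_101

open Pool.Agent.Strip051.LB Pool.Agent.Strip051.LB.Fn Pool.Agent.Strip051.LB.Fc Pool.Agent.StripNear

set_option maxRecDepth 100000
set_option linter.all false

noncomputable def v30 (x1 x2 : ℝ) : ℝ := -(v18 x1 x2)

noncomputable def v31 (x1 x2 : ℝ) : ℝ := -(v29 x1 x2)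

noncomputable def v46 (x1 x2 : ℝ) : ℝ := v26 x1 x2 * v45 x1 x2

noncomputable def v51 (x1 x2 : ℝ) : ℝ := v46 x1 x2 * v50 x1 x2

noncomputable def v56 (x1 x2 : ℝ) : ℝ := v55 x1 x2 - v5 x1 x2

noncomputable def v60 (x1 x2 : ℝ) : ℝ := v27 x1 x2 - v58 x1 x2

noncomputable def v61 (x1 x2 : ℝ) : ℝ := -(v59 x1 x2)

noncomputable def v65 (x1 x2 : ℝ) : ℝ := -(v64 x1 x2)

noncomputable def v67 (x1 x2 : ℝ) : ℝ := (v66 x1 x2) ^ 2

noncomputable def v71 (x1 x2 : ℝ) : ℝ := (v70 x1 x2) ^ 2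

noncomputable def v73 (x1 x2 : ℝ) : ℝ := v67 x1 x2 + v71 x1 x2

noncomputable def v75 (x1 x2 : ℝ) : ℝ := v73 x1 x2 - v5 x1 x2

noncomputable def v80 (x1 x2 : ℝ) : ℝ := ((2 : ℕ) : ℝ) * v78 x1 x2

noncomputable def v81 (x1 x2 : ℝ) : ℝ := v5 x1 x2 + v80 x1 x2

noncomputable def v84 (x1 x2 : ℝ) : ℝ := v81 x1 x2 * v83 x1 x2

noncomputable def v89 (x1 x2 : ℝ) : ℝ := v84 x1 x2 * v88 x1 x2

noncomputable def v90 (x1 x2 : ℝ) : ℝ := v5 x1 x2 - v71 x1 x2

noncomputable def v91 (x1 x2 : ℝ) : ℝ := -(v72 x1 x2)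

noncomputable def v95 (x1 x2 : ℝ) : ℝ := -(v94 x1 x2)

noncomputable def v98 (x1 x2 : ℝ) : ℝ := -(v97 x1 x2)

noncomputable def v115 (x1 x2 : ℝ) : ℝ := -(v114 x1 x2)

noncomputable def v116 (x1 x2 : ℝ) : ℝ := v103 x1 x2 * v112 x1 x2

noncomputable def v125 (x1 x2 : ℝ) : ℝ := v76 x1 x2 - v78 x1 x2

noncomputable def v126 (x1 x2 : ℝ) : ℝ := v125 x1 x2 * v121 x1 x2

noncomputable def v127 (x1 x2 : ℝ) : ℝ := v89 x1 x2 + v126 x1 x2

noncomputable def v128 (x1 x2 : ℝ) : ℝ := -(v127 x1 x2)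

noncomputable def v129 (x1 x2 : ℝ) : ℝ := -(v116 x1 x2)

noncomputable def v142 (x1 x2 : ℝ) : ℝ := v7 x1 x2 * v19 x1 x2

noncomputable def v143 (x1 x2 : ℝ) : ℝ := v18 x1 x2 * v0 x1 x2

noncomputable def v144 (x1 x2 : ℝ) : ℝ := -(v143 x1 x2)

noncomputable def v146 (x1 x2 : ℝ) : ℝ := -(v145 x1 x2)

noncomputable def v147 (x1 x2 : ℝ) : ℝ := v142 x1 x2 - v143 x1 x2

noncomputable def v149 (x1 x2 : ℝ) : ℝ := v147 x1 x2 * v139 x1 x2

noncomputable def v151 (x1 x2 : ℝ) : ℝ := v149 x1 x2 - v9 x1 x2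

noncomputable def v161 (x1 x2 : ℝ) : ℝ := -(v5 x1 x2)

noncomputable def v169 (x1 x2 : ℝ) : ℝ := -(v168 x1 x2)

noncomputable def v170 (x1 x2 : ℝ) : ℝ := v155 x1 x2 * v166 x1 x2

noncomputable def v201 (x1 x2 : ℝ) : ℝ := v70 x1 x2 - v3 x1 x2

structure Cx (x1 x2 : ℝ) : Prop where
  hc : v7 x1 x2 ^ 2 + x1 ^ 2 = 1
  p28 : 0 < v28 x1 x2
  p62 : 0 < v62 x1 x2
  p77 : 0 < v77 x1 x2
  p92 : 0 < v92 x1 x2
  p87 : 0 < v87 x1 x2
  p110 : 0 < v110 x1 x2
  p122 : 0 < v122 x1 x2
  p124 : 0 < v124 x1 x2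
  p49 : 0 < v49 x1 x2
  p163 : 0 < v163 x1 x2
  p41 : 0 < v41 x1 x2

variable {x1 x2 : ℝ}

theorem s3q (x1 x2 : ℝ) : v2 x1 x2 ^ 2 = 3 := by
  rw [v2]; exact s3sq

theorem s3ne (x1 x2 : ℝ) : v2 x1 x2 ≠ 0 := by
  rw [v2]; positivity

theorem s1 (c : Cx x1 x2) : v1 x1 x2 = v19 x1 x2 + v25 x1 x2 * v5 x1 x2 := by
  simp only [v1, v5, v25]
  (try push_cast)
  first | ring | grind

theorem s26 (c : Cx x1 x2) : v26 x1 x2 = v58 x1 x2 + v25 x1 x2 * v59 x1 x2 := by
  have a0 : (v1 x1 x2 + v19 x1 x2) * v1 x1 x2 = (v1 x1 x2 + v19 x1 x2) * (v19 x1 x2 + v25 x1 x2 * v5 x1 x2) := congrArg (fun z => (v1 x1 x2 + v19 x1 x2) * z) (s1 c)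
  try simp only [v1, v5, v25, v26, v58, v59] at a0
  simp only [v1, v5, v25, v26, v58, v59]
  (try push_cast at a0 ⊢)
  first | linear_combination a0 | ring | grind

theorem s28 (c : Cx x1 x2) : v28 x1 x2 = v60 x1 x2 + v25 x1 x2 * v61 x1 x2 := by
  have a1 := s26 c
  try simp only [v1, v25, v27, v28, v59, v60, v61] at a1
  simp only [v1, v25, v27, v28, v59, v60, v61]
  (try push_cast at a1 ⊢)
  first | linear_combination -a1 | ring | grind

theorem q29 (c : Cx x1 x2) : v60 x1 x2 = v30 x1 x2 ^ 2 := by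
  have hc := c.hc
  have h3 := s3q x1 x2
  simp only [v0, v3, v10, v11, v12, v13, v14, v16, v17, v18, v19, v27, v30, v58, v60] at hc ⊢
  push_cast at hc ⊢
  grind

theorem s29 (c : Cx x1 x2) : v29 x1 x2 = v30 x1 x2 + v25 x1 x2 * v65 x1 x2 := by
  have a0 := s28 c
  have e : 0 < Real.sqrt (v28 x1 x2) + v30 x1 x2 := by
    have e := c.p62
    simp only [v27, v28, v29, v30, v62] at e ⊢
    push_cast at e ⊢
    linarith
  have b := sl_sqrt a0 (q29 c) (le_of_lt c.p28) e
  clear a0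
  try simp only [v1, v25, v27, v28, v29, v30, v59, v60, v61, v62, v63, v64, v65] at b
  simp only [v1, v25, v27, v28, v29, v30, v59, v60, v61, v62, v63, v64, v65]
  (try push_cast at b ⊢)
  first | linear_combination b | ring | grind

theorem s32 (c : Cx x1 x2) : v32 x1 x2 = v66 x1 x2 + v25 x1 x2 * v64 x1 x2 := by
  have a1 := s29 c
  try simp only [v1, v25, v30, v32, v65, v66] at a1
  simp only [v1, v25, v30, v32, v65, v66]
  (try push_cast at a1 ⊢)
  first | linear_combination -a1 | ring | grind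

theorem s33 (c : Cx x1 x2) : v33 x1 x2 = v70 x1 x2 + v25 x1 x2 * v5 x1 x2 := by
  have a1 := s1 c
  try simp only [v0, v1, v5, v25, v33, v70] at a1
  simp only [v0, v1, v5, v25, v33, v70]
  (try push_cast at a1 ⊢)
  first | linear_combination a1 | ring | grind

theorem s45 (c : Cx x1 x2) : v45 x1 x2 = v154 x1 x2 + v25 x1 x2 * v65 x1 x2 := by
  have a0 := s29 c
  try simp only [v1, v25, v30, v44, v45, v65, v154] at a0
  simp only [v1, v25, v30, v44, v45, v65, v154]
  (try push_cast at a0 ⊢)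
  first | linear_combination a0 | ring | grind

theorem s46 (c : Cx x1 x2) : v46 x1 x2 = v155 x1 x2 + v25 x1 x2 * v159 x1 x2 := by
  have a0 : (v45 x1 x2) * v26 x1 x2 = (v45 x1 x2) * (v58 x1 x2 + v25 x1 x2 * v59 x1 x2) := congrArg (fun z => (v45 x1 x2) * z) (s26 c)
  have a1 : (v58 x1 x2) * v45 x1 x2 = (v58 x1 x2) * (v154 x1 x2 + v25 x1 x2 * v65 x1 x2) := congrArg (fun z => (v58 x1 x2) * z) (s45 c)
  try simp only [v1, v25, v44, v45, v46, v59, v65, v154, v155, v156, v157, v159] at a0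
  try simp only [v1, v25, v44, v45, v46, v59, v65, v154, v155, v156, v157, v159] at a1
  simp only [v1, v25, v44, v45, v46, v59, v65, v154, v155, v156, v157, v159]
  (try push_cast at a0 a1 ⊢)
  first | linear_combination a0 + a1 | ring | grind

theorem s47 (c : Cx x1 x2) : v47 x1 x2 = v160 x1 x2 + v25 x1 x2 * v161 x1 x2 := by
  have a1 := s1 c
  try simp only [v1, v2, v3, v5, v25, v47, v160, v161] at a1
  simp only [v1, v2, v3, v5, v25, v47, v160, v161]
  (try push_cast at a1 ⊢)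
  first | linear_combination -a1 | ring | grind

theorem s48 (c : Cx x1 x2) : v48 x1 x2 = v162 x1 x2 + v25 x1 x2 * v5 x1 x2 := by
  have a1 := s1 c
  try simp only [v1, v2, v3, v5, v25, v48, v162] at a1
  simp only [v1, v2, v3, v5, v25, v48, v162]
  (try push_cast at a1 ⊢)
  first | linear_combination a1 | ring | grind

theorem s49 (c : Cx x1 x2) : v49 x1 x2 = v163 x1 x2 + v25 x1 x2 * v165 x1 x2 := by
  have a0 : (v48 x1 x2) * v47 x1 x2 = (v48 x1 x2) * (v160 x1 x2 + v25 x1 x2 * v161 x1 x2) := congrArg (fun z => (v48 x1 x2) * z) (s47 c)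
  have a1 : (v160 x1 x2) * v48 x1 x2 = (v160 x1 x2) * (v162 x1 x2 + v25 x1 x2 * v5 x1 x2) := congrArg (fun z => (v160 x1 x2) * z) (s48 c)
  try simp only [v1, v2, v3, v5, v25, v47, v48, v49, v160, v161, v162, v163, v165] at a0
  try simp only [v1, v2, v3, v5, v25, v47, v48, v49, v160, v161, v162, v163, v165] at a1
  simp only [v1, v2, v3, v5, v25, v47, v48, v49, v160, v161, v162, v163, v165]
  (try push_cast at a0 a1 ⊢)
  first | linear_combination a0 + a1 | ring | grind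

theorem s50 (c : Cx x1 x2) : v50 x1 x2 = v166 x1 x2 + v25 x1 x2 * v169 x1 x2 := by
  have a0 := s49 c
  have b := sl_inv a0 (c.p49).ne' (c.p163).ne'
  clear a0
  try simp only [v1, v2, v3, v25, v48, v50, v160, v165, v166, v167, v168, v169] at b
  simp only [v1, v2, v3, v25, v48, v50, v160, v165, v166, v167, v168, v169]
  (try push_cast at b ⊢)
  first | linear_combination b | ring | grind

theorem s51 (c : Cx x1 x2) : v51 x1 x2 = v170 x1 x2 + v25 x1 x2 * v174 x1 x2 := by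
  have a0 : (v50 x1 x2) * v46 x1 x2 = (v50 x1 x2) * (v155 x1 x2 + v25 x1 x2 * v159 x1 x2) := congrArg (fun z => (v50 x1 x2) * z) (s46 c)
  have a1 : (v155 x1 x2) * v50 x1 x2 = (v155 x1 x2) * (v166 x1 x2 + v25 x1 x2 * v169 x1 x2) := congrArg (fun z => (v155 x1 x2) * z) (s50 c)
  try simp only [v1, v25, v51, v159, v169, v170, v171, v172, v174] at a0
  try simp only [v1, v25, v51, v159, v169, v170, v171, v172, v174] at a1
  simp only [v1, v25, v51, v159, v169, v170, v171, v172, v174]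
  (try push_cast at a0 a1 ⊢)
  first | linear_combination a0 + a1 | ring | grind

theorem s53 (c : Cx x1 x2) : v53 x1 x2 = v67 x1 x2 + v25 x1 x2 * v69 x1 x2 := by
  have a0 : (v32 x1 x2 + v66 x1 x2) * v32 x1 x2 = (v32 x1 x2 + v66 x1 x2) * (v66 x1 x2 + v25 x1 x2 * v64 x1 x2) := congrArg (fun z => (v32 x1 x2 + v66 x1 x2) * z) (s32 c)
  try simp only [v1, v25, v32, v53, v66, v67, v68, v69] at a0
  simp only [v1, v25, v32, v53, v66, v67, v68, v69]
  (try push_cast at a0 ⊢)
  first | linear_combination a0 | ring | grind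

theorem s54 (c : Cx x1 x2) : v54 x1 x2 = v71 x1 x2 + v25 x1 x2 * v72 x1 x2 := by
  have a0 : (v33 x1 x2 + v70 x1 x2) * v33 x1 x2 = (v33 x1 x2 + v70 x1 x2) * (v70 x1 x2 + v25 x1 x2 * v5 x1 x2) := congrArg (fun z => (v33 x1 x2 + v70 x1 x2) * z) (s33 c)
  try simp only [v0, v1, v5, v25, v33, v54, v70, v71, v72] at a0
  simp only [v0, v1, v5, v25, v33, v54, v70, v71, v72]
  (try push_cast at a0 ⊢)
  first | linear_combination a0 | ring | grind

theorem s55 (c : Cx x1 x2) : v55 x1 x2 = v73 x1 x2 + v25 x1 x2 * v74 x1 x2 := by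
  have a0 := s53 c
  have a1 := s54 c
  try simp only [v0, v1, v25, v33, v55, v70, v72, v73, v74] at a0
  try simp only [v0, v1, v25, v33, v55, v70, v72, v73, v74] at a1
  simp only [v0, v1, v25, v33, v55, v70, v72, v73, v74]
  (try push_cast at a0 a1 ⊢)
  first | linear_combination a0 + a1 | ring | grind

theorem s56 (c : Cx x1 x2) : v56 x1 x2 = v75 x1 x2 + v25 x1 x2 * v74 x1 x2 := by
  have a0 := s55 c
  try simp only [v0, v1, v5, v25, v33, v55, v56, v70, v72, v73, v74, v75] at a0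
  simp only [v0, v1, v5, v25, v33, v55, v56, v70, v72, v73, v74, v75]
  (try push_cast at a0 ⊢)
  first | linear_combination a0 | ring | grind

theorem s77 (c : Cx x1 x2) : v77 x1 x2 = v90 x1 x2 + v25 x1 x2 * v91 x1 x2 := by
  have a1 := s54 c
  try simp only [v0, v1, v5, v25, v33, v70, v72, v77, v90, v91] at a1
  simp only [v0, v1, v5, v25, v33, v70, v72, v77, v90, v91]
  (try push_cast at a1 ⊢)
  first | linear_combination -a1 | ring | grind

theorem q78 (c : Cx x1 x2) : v90 x1 x2 = v79 x1 x2 ^ 2 := by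
  have hc := c.hc
  have h3 := s3q x1 x2
  simp only [v0, v3, v5, v14, v16, v17, v19, v70, v71, v79, v90] at hc ⊢
  push_cast at hc ⊢
  grind

theorem s78 (c : Cx x1 x2) : v78 x1 x2 = v79 x1 x2 + v25 x1 x2 * v95 x1 x2 := by
  have a0 := s77 c
  have e : 0 < Real.sqrt (v77 x1 x2) + v79 x1 x2 := by
    have e := c.p92
    simp only [v5, v16, v77, v78, v79, v92] at e ⊢
    push_cast at e ⊢
    linarith
  have b := sl_sqrt a0 (q78 c) (le_of_lt c.p77) e
  clear a0
  try simp only [v0, v1, v5, v16, v25, v33, v70, v72, v77, v78, v79, v90, v91, v92, v93, v94, v95] at b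
  simp only [v0, v1, v5, v16, v25, v33, v70, v72, v77, v78, v79, v90, v91, v92, v93, v94, v95]
  (try push_cast at b ⊢)
  first | linear_combination b | ring | grind

theorem s80 (c : Cx x1 x2) : v80 x1 x2 = v96 x1 x2 + v25 x1 x2 * v98 x1 x2 := by
  have a0 := s78 c
  try simp only [v1, v16, v25, v79, v80, v95, v96, v97, v98] at a0
  simp only [v1, v16, v25, v79, v80, v95, v96, v97, v98]
  (try push_cast at a0 ⊢)
  first | linear_combination (2 : ℝ) * a0 | ring | grind

theorem s81 (c : Cx x1 x2) : v81 x1 x2 = v99 x1 x2 + v25 x1 x2 * v98 x1 x2 := by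
  have a1 := s80 c
  try simp only [v1, v5, v16, v25, v79, v80, v81, v96, v97, v98, v99] at a1
  simp only [v1, v5, v16, v25, v79, v80, v81, v96, v97, v98, v99]
  (try push_cast at a1 ⊢)
  first | linear_combination a1 | ring | grind

theorem s82 (c : Cx x1 x2) : v82 x1 x2 = v100 x1 x2 + v25 x1 x2 * v2 x1 x2 := by
  have a1 : (v2 x1 x2) * v33 x1 x2 = (v2 x1 x2) * (v70 x1 x2 + v25 x1 x2 * v5 x1 x2) := congrArg (fun z => (v2 x1 x2) * z) (s33 c)
  try simp only [v0, v1, v2, v5, v25, v33, v70, v82, v100] at a1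
  simp only [v0, v1, v2, v5, v25, v33, v70, v82, v100]
  (try push_cast at a1 ⊢)
  first | linear_combination a1 | ring | grind

theorem s83 (c : Cx x1 x2) : v83 x1 x2 = v101 x1 x2 + v25 x1 x2 * v102 x1 x2 := by
  have a0 := s82 c
  have a1 := s78 c
  try simp only [v1, v2, v16, v25, v79, v83, v95, v101, v102] at a0
  try simp only [v1, v2, v16, v25, v79, v83, v95, v101, v102] at a1
  simp only [v1, v2, v16, v25, v79, v83, v95, v101, v102]
  (try push_cast at a0 a1 ⊢)
  first | linear_combination a0 - a1 | ring | grind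

theorem s84 (c : Cx x1 x2) : v84 x1 x2 = v103 x1 x2 + v25 x1 x2 * v107 x1 x2 := by
  have a0 : (v83 x1 x2) * v81 x1 x2 = (v83 x1 x2) * (v99 x1 x2 + v25 x1 x2 * v98 x1 x2) := congrArg (fun z => (v83 x1 x2) * z) (s81 c)
  have a1 : (v99 x1 x2) * v83 x1 x2 = (v99 x1 x2) * (v101 x1 x2 + v25 x1 x2 * v102 x1 x2) := congrArg (fun z => (v99 x1 x2) * z) (s83 c)
  try simp only [v1, v2, v5, v16, v25, v79, v80, v81, v83, v84, v96, v97, v98, v99, v101, v102, v103, v104, v106, v107] at a0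
  try simp only [v1, v2, v5, v16, v25, v79, v80, v81, v83, v84, v96, v97, v98, v99, v101, v102, v103, v104, v106, v107] at a1
  simp only [v1, v2, v5, v16, v25, v79, v80, v81, v83, v84, v96, v97, v98, v99, v101, v102, v103, v104, v106, v107]
  (try push_cast at a0 a1 ⊢)
  first | linear_combination a0 + a1 | ring | grind

theorem s85 (c : Cx x1 x2) : v85 x1 x2 = v108 x1 x2 + v25 x1 x2 * v2 x1 x2 := by
  have a1 := s82 c
  try simp only [v1, v2, v5, v25, v85, v108] at a1
  simp only [v1, v2, v5, v25, v85, v108]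
  (try push_cast at a1 ⊢)
  first | linear_combination a1 | ring | grind

theorem s86 (c : Cx x1 x2) : v86 x1 x2 = v109 x1 x2 + v25 x1 x2 * v102 x1 x2 := by
  have a0 := s85 c
  have a1 := s78 c
  try simp only [v1, v2, v5, v16, v25, v79, v85, v86, v95, v102, v108, v109] at a0
  try simp only [v1, v2, v5, v16, v25, v79, v85, v86, v95, v102, v108, v109] at a1
  simp only [v1, v2, v5, v16, v25, v79, v85, v86, v95, v102, v108, v109]
  (try push_cast at a0 a1 ⊢)
  first | linear_combination a0 - a1 | ring | grind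

theorem s87 (c : Cx x1 x2) : v87 x1 x2 = v110 x1 x2 + v25 x1 x2 * v111 x1 x2 := by
  have a0 := s86 c
  try simp only [v1, v2, v5, v16, v25, v79, v85, v86, v87, v102, v108, v109, v110, v111] at a0
  simp only [v1, v2, v5, v16, v25, v79, v85, v86, v87, v102, v108, v109, v110, v111]
  (try push_cast at a0 ⊢)
  first | linear_combination (2 : ℝ) * a0 | ring | grind

theorem s88 (c : Cx x1 x2) : v88 x1 x2 = v112 x1 x2 + v25 x1 x2 * v115 x1 x2 := by
  have a0 := s87 c
  have b := sl_inv a0 (c.p87).ne' (c.p110).ne'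
  clear a0
  try simp only [v1, v2, v5, v16, v25, v79, v85, v86, v87, v88, v102, v108, v109, v110, v111, v112, v113, v114, v115] at b
  simp only [v1, v2, v5, v16, v25, v79, v85, v86, v87, v88, v102, v108, v109, v110, v111, v112, v113, v114, v115]
  (try push_cast at b ⊢)
  first | linear_combination b | ring | grind

theorem s89 (c : Cx x1 x2) : v89 x1 x2 = v116 x1 x2 + v25 x1 x2 * v120 x1 x2 := by
  have a0 : (v88 x1 x2) * v84 x1 x2 = (v88 x1 x2) * (v103 x1 x2 + v25 x1 x2 * v107 x1 x2) := congrArg (fun z => (v88 x1 x2) * z) (s84 c)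
  have a1 : (v103 x1 x2) * v88 x1 x2 = (v103 x1 x2) * (v112 x1 x2 + v25 x1 x2 * v115 x1 x2) := congrArg (fun z => (v103 x1 x2) * z) (s88 c)
  try simp only [v1, v25, v89, v107, v115, v116, v117, v118, v120] at a0
  try simp only [v1, v25, v89, v107, v115, v116, v117, v118, v120] at a1
  simp only [v1, v25, v89, v107, v115, v116, v117, v118, v120]
  (try push_cast at a0 a1 ⊢)
  first | linear_combination a0 + a1 | ring | grind

theorem s135 (c : Cx x1 x2) : v135 x1 x2 = v142 x1 x2 + v25 x1 x2 * v7 x1 x2 := by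
  have a1 : (v7 x1 x2) * v1 x1 x2 = (v7 x1 x2) * (v19 x1 x2 + v25 x1 x2 * v5 x1 x2) := congrArg (fun z => (v7 x1 x2) * z) (s1 c)
  try simp only [v1, v5, v25, v135, v142] at a1
  simp only [v1, v5, v25, v135, v142]
  (try push_cast at a1 ⊢)
  first | linear_combination a1 | ring | grind

theorem s136 (c : Cx x1 x2) : v136 x1 x2 = v144 x1 x2 + v25 x1 x2 * v146 x1 x2 := by
  have a0 : (v0 x1 x2) * v29 x1 x2 = (v0 x1 x2) * (v30 x1 x2 + v25 x1 x2 * v65 x1 x2) := congrArg (fun z => (v0 x1 x2) * z) (s29 c)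
  try simp only [v0, v1, v25, v30, v65, v136, v143, v144, v145, v146] at a0
  simp only [v0, v1, v25, v30, v65, v136, v143, v144, v145, v146]
  (try push_cast at a0 ⊢)
  first | linear_combination a0 | ring | grind

theorem s138 (c : Cx x1 x2) : v138 x1 x2 = v147 x1 x2 + v25 x1 x2 * v148 x1 x2 := by
  have a0 := s135 c
  have a1 := s136 c
  try simp only [v1, v25, v138, v144, v146, v147, v148] at a0
  try simp only [v1, v25, v138, v144, v146, v147, v148] at a1
  simp only [v1, v25, v138, v144, v146, v147, v148]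
  (try push_cast at a0 a1 ⊢)
  first | linear_combination a0 + a1 | ring | grind

theorem s140 (c : Cx x1 x2) : v140 x1 x2 = v149 x1 x2 + v25 x1 x2 * v150 x1 x2 := by
  have a0 : (v139 x1 x2) * v138 x1 x2 = (v139 x1 x2) * (v147 x1 x2 + v25 x1 x2 * v148 x1 x2) := congrArg (fun z => (v139 x1 x2) * z) (s138 c)
  try simp only [v1, v25, v138, v140, v147, v148, v149, v150] at a0
  simp only [v1, v25, v138, v140, v147, v148, v149, v150]
  (try push_cast at a0 ⊢)
  first | linear_combination a0 | ring | grind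

theorem s141 (c : Cx x1 x2) : v141 x1 x2 = v151 x1 x2 + v25 x1 x2 * v150 x1 x2 := by
  have a0 := s140 c
  try simp only [v1, v9, v25, v141, v151] at a0
  simp only [v1, v9, v25, v141, v151]
  (try push_cast at a0 ⊢)
  first | linear_combination a0 | ring | grind

theorem s153 (c : Cx x1 x2) : v153 x1 x2 = v201 x1 x2 + v25 x1 x2 * v5 x1 x2 := by
  have a0 := s33 c
  try simp only [v0, v1, v2, v3, v5, v25, v33, v70, v153, v201] at a0
  simp only [v0, v1, v2, v3, v5, v25, v33, v70, v153, v201]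
  (try push_cast at a0 ⊢)
  first | linear_combination a0 | ring | grind

theorem bD (c : Cx x1 x2) : v75 x1 x2 = 0 := by
  have hc := c.hc
  have h3 := s3q x1 x2
  simp only [v0, v3, v5, v10, v11, v12, v13, v14, v16, v17, v18, v19, v66, v67, v70, v71, v73, v75] at hc ⊢
  push_cast at hc ⊢
  grind

theorem sD (c : Cx x1 x2) : v56 x1 x2 = v25 x1 x2 * v74 x1 x2 := by
  have h := s56 c
  rw [bD c, zero_add] at h
  exact h

theorem s128 (c : Cx x1 x2) : v128 x1 x2 = v129 x1 x2 + v25 x1 x2 * v134 x1 x2 := by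
  have hA := s89 c
  have hd := sD c
  have hs := c.p122
  have hc : v78 x1 x2 ^ 2 = v77 x1 x2 := by
    rw [v78]; exact Real.sq_sqrt (le_of_lt c.p77)
  have hx : v76 x1 x2 - v78 x1 x2 = v56 x1 x2 * (v122 x1 x2)⁻¹ := by
    have g : v76 x1 x2 ^ 2 - v78 x1 x2 ^ 2 = v56 x1 x2 := by
      rw [hc]; simp only [v0, v1, v5, v32, v33, v53, v54, v55, v56, v76, v77, v122]; push_cast; ring
    have g3 : v122 x1 x2 = v76 x1 x2 + v78 x1 x2 := by
      simp only [v0, v1, v5, v32, v33, v53, v54, v55, v56, v76, v77, v122]; try push_cast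
      try ring
    have g2 : 0 < v76 x1 x2 + v78 x1 x2 := by rw [← g3]; exact hs
    rw [g3]; exact diff_of_sq g g2
  have hy : v121 x1 x2 * (v76 x1 x2 - v78 x1 x2) = v121 x1 x2 * (v56 x1 x2 * (v122 x1 x2)⁻¹) := congrArg (fun z => v121 x1 x2 * z) hx
  have hK : v121 x1 x2 * (v122 x1 x2)⁻¹ * v56 x1 x2 = v121 x1 x2 * (v122 x1 x2)⁻¹ * (v25 x1 x2 * v74 x1 x2) := congrArg (fun z => v121 x1 x2 * (v122 x1 x2)⁻¹ * z) hd
  try simp only [v0, v1, v5, v25, v33, v55, v56, v70, v72, v74, v76, v120, v122, v125, v126, v127, v128, v129, v130, v131, v132, v133, v134] at hA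
  try simp only [v0, v1, v5, v25, v33, v55, v56, v70, v72, v74, v76, v120, v122, v125, v126, v127, v128, v129, v130, v131, v132, v133, v134] at hy
  try simp only [v0, v1, v5, v25, v33, v55, v56, v70, v72, v74, v76, v120, v122, v125, v126, v127, v128, v129, v130, v131, v132, v133, v134] at hK
  simp only [v0, v1, v5, v25, v33, v55, v56, v70, v72, v74, v76, v120, v122, v125, v126, v127, v128, v129, v130, v131, v132, v133, v134]
  (try push_cast at hA hy hK ⊢)
  first | linear_combination -(hA + hy + hK) | grind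

theorem bE (c : Cx x1 x2) : v151 x1 x2 = 0 := by
  have hc := c.hc
  have h3 := s3q x1 x2
  have g0 : v2 x1 x2 ≠ 0 := s3ne x1 x2
  simp only [v0, v3, v9, v10, v11, v12, v13, v14, v16, v17, v18, v19, v139, v142, v143, v147, v149, v151] at hc ⊢
  push_cast at hc ⊢
  grind

theorem hE (c : Cx x1 x2) : v141 x1 x2 = v25 x1 x2 * v150 x1 x2 := by
  have h := s141 c
  rw [bE c, zero_add] at h
  exact h

theorem bS (c : Cx x1 x2) : v129 x1 x2 - v43 x1 x2 - v170 x1 x2 = 0 := by
  have hc := c.hc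
  have h3 := s3q x1 x2
  have g0 := (c.p41).ne'
  have g1 := (c.p110).ne'
  have g2 := (c.p163).ne'
  simp only [v0, v3, v5, v10, v11, v12, v13, v14, v16, v17, v18, v19, v34, v35, v36, v37, v38, v39, v40, v41, v42, v43, v44, v58, v70, v79, v96, v99, v100, v101, v103, v108, v109, v110, v112, v116, v129, v154, v155, v160, v162, v163, v166, v170] at hc g0 g1 g2 ⊢
  push_cast at hc g0 g1 g2 ⊢
  grind

theorem hS (c : Cx x1 x2) : v128 x1 x2 - v43 x1 x2 - v51 x1 x2 = v25 x1 x2 * v175 x1 x2 := by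
  have a3 := s128 c
  have a2 := s51 c
  have b := bS c
  try simp only [v1, v25, v120, v127, v128, v129, v133, v134, v174, v175] at a3
  try simp only [v1, v25, v120, v127, v128, v129, v133, v134, v174, v175] at a2
  try simp only [v1, v25, v120, v127, v128, v129, v133, v134, v174, v175] at b
  try simp only [v1, v25, v120, v127, v128, v129, v133, v134, v174, v175]
  (try push_cast at a3 a2 b ⊢)
  first | linear_combination a3 - a2 + b | grind

theorem bC (c : Cx x1 x2) : v152 x1 x2 * v170 x1 x2 - v19 x1 x2 * v43 x1 x2 = 0 := by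
  have hc := c.hc
  have h3 := s3q x1 x2
  have g0 := (c.p41).ne'
  have g1 := (c.p163).ne'
  simp only [v0, v3, v5, v10, v11, v12, v13, v14, v16, v17, v18, v19, v34, v35, v36, v37, v38, v39, v40, v41, v42, v43, v44, v58, v152, v154, v155, v160, v162, v163, v166, v170] at hc g0 g1 ⊢
  push_cast at hc g0 g1 ⊢
  grind

theorem hC (c : Cx x1 x2) : v152 x1 x2 * v51 x1 x2 - v1 x1 x2 * v43 x1 x2 = v25 x1 x2 * v177 x1 x2 := by
  have a2 : v152 x1 x2 * v51 x1 x2 = v152 x1 x2 * (v170 x1 x2 + v25 x1 x2 * v174 x1 x2) := congrArg (fun z => v152 x1 x2 * z) (s51 c)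
  have a3 : v43 x1 x2 * v1 x1 x2 = v43 x1 x2 * (v19 x1 x2 + v25 x1 x2 * v5 x1 x2) := congrArg (fun z => v43 x1 x2 * z) (s1 c)
  have b := bC c
  try simp only [v0, v1, v2, v3, v5, v25, v152, v174, v176, v177] at a2
  try simp only [v0, v1, v2, v3, v5, v25, v152, v174, v176, v177] at a3
  try simp only [v0, v1, v2, v3, v5, v25, v152, v174, v176, v177] at b
  simp only [v0, v1, v2, v3, v5, v25, v152, v174, v176, v177]
  (try push_cast at a2 a3 b ⊢)
  first | linear_combination a2 - a3 + b | grind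

theorem hT (x1 x2 : ℝ) : v153 x1 x2 = v152 x1 x2 + v1 x1 x2 := by
  simp only [v0, v1, v2, v3, v33, v152, v153]
  push_cast
  ring

theorem hG (c : Cx x1 x2) : (-v153 x1 x2) * (-v51 x1 x2) - v1 x1 x2 * v128 x1 x2 = v25 x1 x2 * v179 x1 x2 := by
  have b := hC c
  have m0 : v1 x1 x2 * (v128 x1 x2 - v43 x1 x2 - v51 x1 x2) = v1 x1 x2 * (v25 x1 x2 * v175 x1 x2) := congrArg (fun z => v1 x1 x2 * z) (hS c)
  have m1 : v51 x1 x2 * v153 x1 x2 = v51 x1 x2 * (v152 x1 x2 + v1 x1 x2) := congrArg (fun z => v51 x1 x2 * z) (hT x1 x2)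
  try simp only [v0, v1, v2, v3, v25, v33, v120, v127, v128, v133, v134, v152, v153, v174, v175, v177, v178, v179] at b
  try simp only [v0, v1, v2, v3, v25, v33, v120, v127, v128, v133, v134, v152, v153, v174, v175, v177, v178, v179] at m0
  try simp only [v0, v1, v2, v3, v25, v33, v120, v127, v128, v133, v134, v152, v153, v174, v175, v177, v178, v179] at m1
  try simp only [v0, v1, v2, v3, v25, v33, v120, v127, v128, v133, v134, v152, v153, v174, v175, v177, v178, v179]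
  (try push_cast at b m0 m1 ⊢)
  first | linear_combination b - m0 + m1 | grind

theorem core (c : Cx x1 x2) (hW : 0 ≤ v25 x1 x2) (hWQ : 0 ≤ v25 x1 x2 * v185 x1 x2) (h1 : 0 ≤ v1 x1 x2) (h2 : 0 ≤ (-v153 x1 x2)) (h3 : v1 x1 x2 + (-v153 x1 x2) ≤ Pool.Agent.StripNear.h0) :
    0 ≤ starn_v (v141 x1 x2) (v1 x1 x2) ((-v153 x1 x2)) ((-v51 x1 x2)) (v128 x1 x2) (v43 x1 x2) := by
  have hD : (-v51 x1 x2) + v128 x1 x2 - v43 x1 x2 = v25 x1 x2 * v175 x1 x2 := by
    have b := hS c
    linear_combination b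
  have k := starn_ge hW h1 h2 h3 (hE c) hD (hG c)
  have f1 : (-v153 x1 x2) = v184 x1 x2 := by
    simp only [v0, v1, v2, v3, v33, v153, v184]
    try (push_cast; ring)
  refine le_trans hWQ (le_trans (le_of_eq ?_) k)
  rw [v185]
  rw [f1]

end Pool.Agent.Strip051.LB.ChA03V2_pm_101
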